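import Pool.Agent.Y6.G.Stm

/-!
Running maxima (job EP-MS), adapted from `Pool.Agent.Y44.EF.MS`.
-/

open Set Filter Topology
open scoped ComplexConjugate

set_option autoImplicit false

namespace Pool.Agent.Y988.EP.MS

open Pool.Agent.Y6.G
open Pool.Agent.Y6.M (Uth εc Md br)

lemma one_le_αM (n : ℕ) : 1 ≤ αM n := by
  have h := al_pos n
  have h1 : 1 ≤ al n := h
  unfold αM
  exact_mod_cast h1

lemma εc_le (n : ℕ) : εc αM n ≤ (√(αM n))⁻¹ := by
  have h := one_le_αM n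
  have h0 : 0 < √(αM n) := Real.sqrt_pos.mpr (by linarith)
  unfold εc
  refine inv_anti₀ h0 ?_
  calc √(αM n) ≤ αM n := by
        rw [Real.sqrt_le_iff]
        exact ⟨by linarith, by nlinarith⟩
    _ = αM n ^ 1 := (pow_one _).symm
    _ ≤ αM n ^ (n + 1) := pow_le_pow_right₀ h (by omega)

lemma bdd {x y : ℝ → ℂ} {θ U : ℝ} (h : ∀ t ∈ Icc 0 θ, ‖x t‖ ≤ U ∧ ‖y t‖ ≤ U) {t : ℝ}
    (ht : t ≤ θ) : BddAbove ((fun s => max ‖x s‖ ‖y s‖) '' Icc 0 t) := by
  refine ⟨U, ?_⟩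
  rintro _ ⟨s, hs, rfl⟩
  have h1 := h s ⟨hs.1, hs.2.trans ht⟩
  exact max_le h1.1 h1.2

theorem t_MS : S_MS := by
  intro hLV z θ hθ hc hconj h1 hCnd
  obtain ⟨hl, hs0, hall, -⟩ := hLV
  have hb : ∀ n t, t ≤ θ →
      BddAbove ((fun s => max ‖xs z (n + 1) s‖ ‖ys z n s‖) '' Icc 0 t) :=
    fun n t ht => bdd (hCnd.1 n) ht
  have hnb : ∀ i, ∀ t ∈ Icc 0 θ, ‖z (br i) t‖ = ‖z i t‖ := by
    intro i t ht
    rw [hconj i t ht]
    exact RCLike.norm_conj _
  have hX : ∀ n, ∀ s ∈ Icc 0 θ, ∀ t ∈ Icc 0 θ, s ≤ t → ‖z (Xm n) s‖ ≤ Ms z t n := by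
    intro n s hs t ht hst
    cases n with
    | zero => exact h1 _ s hs
    | succ n =>
      refine le_trans ?_ (le_max_right _ _)
      refine le_trans ?_ (le_csSup (hb n t ht.2) ⟨s, ⟨hs.1, hst⟩, rfl⟩)
      exact le_max_left _ _
  have hY : ∀ n, ∀ s ∈ Icc 0 θ, ∀ t ∈ Icc 0 θ, s ≤ t → ‖z (Ym n) s‖ ≤ Ms z t (n + 1) := by
    intro n s hs t ht hst
    refine le_trans ?_ (le_max_right _ _)
    refine le_trans ?_ (le_csSup (hb n t ht.2) ⟨s, ⟨hs.1, hst⟩, rfl⟩)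
    exact le_max_right _ _
  refine ⟨?_, ?_, ?_⟩
  · intro t ht
    refine ⟨rfl, ?_, ?_, fun n => hCnd.2 n t ht⟩
    · intro n
      cases n with
      | zero =>
        refine (εc_le 0).trans ?_
        change (√(αM 0))⁻¹ ≤ 1
        exact inv_le_one_of_one_le₀ (Real.one_le_sqrt.mpr (one_le_αM 0))
      | succ n => exact le_max_left _ _
    · intro n
      refine max_le ?_ ?_
      · refine (εc_le (n + 1)).trans ?_
        unfold Uth
        have : 0 ≤ (√(αM (n + 1)))⁻¹ := by positivity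
        linarith
      · refine csSup_le ⟨_, 0, ⟨le_rfl, ht.1⟩, rfl⟩ ?_
        rintro _ ⟨s, hs, rfl⟩
        have h2 := hCnd.1 n s ⟨hs.1, hs.2.trans ht.2⟩
        exact max_le h2.1 h2.2
  · intro s hs t ht hst n
    cases n with
    | zero => exact le_rfl
    | succ n =>
      exact max_le_max le_rfl (csSup_le_csSup (hb n t ht.2) ⟨_, 0, ⟨le_rfl, hs.1⟩, rfl⟩
        (image_mono (Icc_subset_Icc_right hst)))
  · intro i hi s hs t ht hst
    obtain ⟨n, rfl | rfl | rfl | rfl⟩ := hall i hi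
    · rw [(hl n).1]
      exact hX n s hs t ht hst
    · rw [(hl n).2.1, hnb _ s hs]
      exact hX n s hs t ht hst
    · rw [(hl n).2.2.1]
      exact hY n s hs t ht hst
    · rw [(hl n).2.2.2, hnb _ s hs]
      exact hY n s hs t ht hst

end Pool.Agent.Y988.EP.MS
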